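import Mathlib

/-!
Wiring diagrams of continuous curves: `Arr p q N` says that there are curves `f c` (`c : ι`),
constant `= p c` on the left and constant `= q c` on the right, meeting in `N c d` points, with no
triple points.
-/

namespace Pool.Agent.H17T

variable {ι : Type*}

/-- curves from heights `p` to heights `q`, the curves `c ≠ d` share exactly `N c d` points and
no three curves share a point -/
def Arr (p q : ι → ℝ) (N : ι → ι → ℕ) : Prop :=
  ∃ (f : ι → ℝ → ℝ) (L : ℝ), 0 ≤ L ∧ (∀ c, Continuous (f c)) ∧ (∀ c x, x ≤ 0 → f c x = p c) ∧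
    (∀ c x, L ≤ x → f c x = q c) ∧
    (∀ c d, c ≠ d → {x | f c x = f d x}.Finite ∧ {x | f c x = f d x}.ncard = N c d) ∧
    (∀ c d e, c ≠ d → d ≠ e → c ≠ e → ∀ x, ¬ (f c x = f d x ∧ f d x = f e x))

theorem Arr.congr {p q : ι → ℝ} {N M : ι → ι → ℕ} (h : Arr p q N)
    (hNM : ∀ c d, c ≠ d → N c d = M c d) : Arr p q M := by
  obtain ⟨f, L, h0, h1, h2, h3, h4, h5⟩ := h
  exact ⟨f, L, h0, h1, h2, h3, fun c d hcd => by rw [← hNM c d hcd]; exact h4 c d hcd, h5⟩

theorem Arr.comp {p q r : ι → ℝ} {N M : ι → ι → ℕ} (hq : Function.Injective q)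
    (h1 : Arr p q N) (h2 : Arr q r M) : Arr p r (fun c d => N c d + M c d) := by
  obtain ⟨f, L, hL, hfc, hf0, hfL, hfN, hf3⟩ := h1
  obtain ⟨g, K, hK, hgc, hg0, hgK, hgM, hg3⟩ := h2
  have hle : ∀ c x, x ≤ L → f c x + (g c (x - L) - q c) = f c x := by
    intro c x hx
    rw [hg0 c (x - L) (by linarith)]; ring
  have hge : ∀ c x, L ≤ x → f c x + (g c (x - L) - q c) = g c (x - L) := by
    intro c x hx
    rw [hfL c x hx]; ring
  refine ⟨fun c x => f c x + (g c (x - L) - q c), L + K, by linarith, ?_, ?_, ?_, ?_, ?_⟩
  · intro c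
    exact (hfc c).add (((hgc c).comp (continuous_id.sub continuous_const)).sub continuous_const)
  · intro c x hx
    show f c x + (g c (x - L) - q c) = p c
    rw [hle c x (by linarith), hf0 c x hx]
  · intro c x hx
    show f c x + (g c (x - L) - q c) = r c
    rw [hge c x (by linarith), hgK c (x - L) (by linarith)]
  · intro c d hcd
    have hset : {x | f c x + (g c (x - L) - q c) = f d x + (g d (x - L) - q d)} =
        {x | f c x = f d x} ∪ (fun x => x + L) '' {x | g c x = g d x} := by
      ext x
      simp only [Set.mem_ofPred_eq, Set.mem_union, Set.mem_image]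
      rcases le_total x L with hx | hx
      · rw [hle c x hx, hle d x hx]
        constructor
        · intro h; exact Or.inl h
        · rintro (h | ⟨y, hy, hyx⟩)
          · exact h
          · exfalso
            have hy0 : y ≤ 0 := by linarith
            rw [hg0 c y hy0, hg0 d y hy0] at hy
            exact hcd (hq hy)
      · rw [hge c x hx, hge d x hx]
        constructor
        · intro h; exact Or.inr ⟨x - L, h, by ring⟩
        · rintro (h | ⟨y, hy, hyx⟩)
          · exfalso
            rw [hfL c x hx, hfL d x hx] at h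
            exact hcd (hq h)
          · have : x - L = y := by linarith
            rw [this]; exact hy
    have hdisj : Disjoint {x | f c x = f d x} ((fun x => x + L) '' {x | g c x = g d x}) := by
      rw [Set.disjoint_left]
      rintro x hx ⟨y, hy, hyx⟩
      simp only [Set.mem_ofPred_eq] at hx hy
      have hxL : x < L := by
        by_contra hcon
        rw [hfL c x (not_lt.mp hcon), hfL d x (not_lt.mp hcon)] at hx
        exact hcd (hq hx)
      have hy0 : 0 < y := by
        by_contra hcon
        rw [hg0 c y (not_lt.mp hcon), hg0 d y (not_lt.mp hcon)] at hy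
        exact hcd (hq hy)
      have : y + L = x := hyx
      linarith
    have hinj : Function.Injective (fun x : ℝ => x + L) := fun a b hab => by
      have : a + L = b + L := hab
      linarith
    have hfin2 : ((fun x => x + L) '' {x | g c x = g d x}).Finite := (hgM c d hcd).1.image _
    show {x | f c x + (g c (x - L) - q c) = f d x + (g d (x - L) - q d)}.Finite ∧
      {x | f c x + (g c (x - L) - q c) = f d x + (g d (x - L) - q d)}.ncard = N c d + M c d
    rw [hset]
    refine ⟨(hfN c d hcd).1.union hfin2, ?_⟩
    rw [Set.ncard_union_eq hdisj (hfN c d hcd).1 hfin2, Set.ncard_image_of_injective _ hinj,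
      (hfN c d hcd).2, (hgM c d hcd).2]
  · intro c d e hcd hde hce x hx
    obtain ⟨hx1, hx2⟩ := hx
    simp only at hx1 hx2
    rcases le_total x L with h | h
    · rw [hle c x h, hle d x h] at hx1
      rw [hle d x h, hle e x h] at hx2
      exact hf3 c d e hcd hde hce x ⟨hx1, hx2⟩
    · rw [hge c x h, hge d x h] at hx1
      rw [hge d x h, hge e x h] at hx2
      exact hg3 c d e hcd hde hce (x - L) ⟨hx1, hx2⟩

/-- inversion of a pair between two height functions -/
def Inv (p q : ι → ℝ) (c d : ι) : Prop := (p c < p d ∧ q d < q c) ∨ (p d < p c ∧ q c < q d)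

open Classical in
/-- inversion count of a pair -/
noncomputable def inv (p q : ι → ℝ) (c d : ι) : ℕ := if Inv p q c d then 1 else 0

theorem inv_le (p q : ι → ℝ) (c d : ι) : inv p q c d ≤ 1 := by
  unfold inv; split_ifs <;> omega

theorem inv_eq_zero_iff (p q : ι → ℝ) (c d : ι) : inv p q c d = 0 ↔ ¬ Inv p q c d := by
  unfold inv; split_ifs with h <;> simp [h]

theorem inv_eq_one_iff (p q : ι → ℝ) (c d : ι) : inv p q c d = 1 ↔ Inv p q c d := by
  unfold inv; split_ifs with h <;> simp [h]

theorem Inv.symm' {p q : ι → ℝ} {c d : ι} (h : Inv p q c d) : Inv q p c d := by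
  rcases h with ⟨h1, h2⟩ | ⟨h1, h2⟩
  · exact Or.inr ⟨h2, h1⟩
  · exact Or.inl ⟨h2, h1⟩

theorem inv_congr {p q p' q' : ι → ℝ} {c d c' d' : ι} (h : Inv p q c d ↔ Inv p' q' c' d') :
    inv p q c d = inv p' q' c' d' := by
  by_cases hI : Inv p q c d
  · rw [(inv_eq_one_iff _ _ _ _).mpr hI, (inv_eq_one_iff _ _ _ _).mpr (h.mp hI)]
  · rw [(inv_eq_zero_iff _ _ _ _).mpr hI, (inv_eq_zero_iff _ _ _ _).mpr (fun h' => hI (h.mpr h'))]

theorem inv_comm (p q : ι → ℝ) (c d : ι) : inv p q c d = inv q p c d :=
  inv_congr ⟨Inv.symm', Inv.symm'⟩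

/-- clamp -/
noncomputable def cl (x : ℝ) : ℝ := max 0 (min 1 x)

theorem cl_nonneg (x : ℝ) : 0 ≤ cl x := le_max_left _ _
theorem cl_le (x : ℝ) : cl x ≤ 1 := max_le zero_le_one (min_le_left _ _)
theorem cl_of_nonpos {x : ℝ} (h : x ≤ 0) : cl x = 0 := by
  unfold cl; rw [min_eq_right (by linarith), max_eq_left h]
theorem cl_of_one_le {x : ℝ} (h : 1 ≤ x) : cl x = 1 := by
  unfold cl; rw [min_eq_left h, max_eq_right zero_le_one]
theorem cl_of_mem {x : ℝ} (h0 : 0 ≤ x) (h1 : x ≤ 1) : cl x = x := by
  unfold cl; rw [min_eq_right h1, max_eq_right h0]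
theorem cl_cont : Continuous cl := continuous_const.max (continuous_const.min continuous_id)

/-- linear interpolation -/
theorem Arr.lin {p q : ι → ℝ} (hp : Function.Injective p) (hq : Function.Injective q)
    (h3 : ∀ c d e, c ≠ d → d ≠ e → c ≠ e → ¬ (Inv p q c d ∧ Inv p q d e)) :
    Arr p q (inv p q) := by
  have key : ∀ c d, c ≠ d → ∀ x, p c + cl x * (q c - p c) = p d + cl x * (q d - p d) →
      Inv p q c d := by
    intro c d hcd x hx
    have hs0 := cl_nonneg x
    have hs1 := cl_le x
    rcases lt_or_gt_of_ne (hp.ne hcd) with h | h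
    · rcases lt_or_gt_of_ne (hq.ne hcd) with h' | h'
      · exfalso
        nlinarith [mul_nonneg hs0 (sub_nonneg.mpr h'.le), mul_nonneg (sub_nonneg.mpr hs1) (sub_nonneg.mpr h.le)]
      · exact Or.inl ⟨h, h'⟩
    · rcases lt_or_gt_of_ne (hq.ne hcd) with h' | h'
      · exact Or.inr ⟨h, h'⟩
      · exfalso
        nlinarith [mul_nonneg hs0 (sub_nonneg.mpr h'.le), mul_nonneg (sub_nonneg.mpr hs1) (sub_nonneg.mpr h.le)]
  refine ⟨fun c x => p c + cl x * (q c - p c), 1, zero_le_one, ?_, ?_, ?_, ?_, ?_⟩
  · intro c
    exact continuous_const.add (cl_cont.mul continuous_const)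
  · intro c x hx
    show p c + cl x * (q c - p c) = p c
    rw [cl_of_nonpos hx]; ring
  · intro c x hx
    show p c + cl x * (q c - p c) = q c
    rw [cl_of_one_le hx]; ring
  · intro c d hcd
    show {x | p c + cl x * (q c - p c) = p d + cl x * (q d - p d)}.Finite ∧
      {x | p c + cl x * (q c - p c) = p d + cl x * (q d - p d)}.ncard = inv p q c d
    by_cases hI : Inv p q c d
    · have hone : inv p q c d = 1 := (inv_eq_one_iff p q c d).mpr hI
      -- unique solution
      have hden : (p d - p c) + (q c - q d) ≠ 0 := by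
        rcases hI with ⟨h1, h2⟩ | ⟨h1, h2⟩
        · intro h; linarith
        · intro h; linarith
      set s : ℝ := (p d - p c) / ((p d - p c) + (q c - q d)) with hs
      have hsmul : s * ((p d - p c) + (q c - q d)) = p d - p c := by
        rw [hs]; exact div_mul_cancel₀ _ hden
      have hs0 : 0 < s ∧ s < 1 := by
        rcases hI with ⟨h1, h2⟩ | ⟨h1, h2⟩
        · have hpos : 0 < (p d - p c) + (q c - q d) := by linarith
          refine ⟨div_pos (by linarith) hpos, ?_⟩
          rw [hs, div_lt_one hpos]; linarith
        · have hneg : (p d - p c) + (q c - q d) < 0 := by linarith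
          refine ⟨div_pos_of_neg_of_neg (by linarith) hneg, ?_⟩
          rw [hs, div_lt_one_of_neg hneg]; linarith
      have hset : {x | p c + cl x * (q c - p c) = p d + cl x * (q d - p d)} = {s} := by
        ext x
        simp only [Set.mem_ofPred_eq, Set.mem_singleton_iff]
        constructor
        · intro hx
          have hcl : cl x * ((p d - p c) + (q c - q d)) = p d - p c := by linarith
          have hclx : cl x = s := by
            have : cl x * ((p d - p c) + (q c - q d)) = s * ((p d - p c) + (q c - q d)) := by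
              rw [hcl, hsmul]
            exact mul_right_cancel₀ hden this
          rcases le_or_gt x 0 with h | h
          · rw [cl_of_nonpos h] at hclx; linarith [hs0.1]
          · rcases le_or_gt 1 x with h' | h'
            · rw [cl_of_one_le h'] at hclx; linarith [hs0.2]
            · rw [cl_of_mem h.le h'.le] at hclx; exact hclx
        · intro hx
          rw [hx, cl_of_mem hs0.1.le hs0.2.le]; linarith
      rw [hset, hone]
      exact ⟨Set.finite_singleton _, Set.ncard_singleton _⟩
    · have hzero : inv p q c d = 0 := (inv_eq_zero_iff p q c d).mpr hI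
      have hset : {x | p c + cl x * (q c - p c) = p d + cl x * (q d - p d)} = ∅ := by
        ext x
        simp only [Set.mem_ofPred_eq, Set.mem_empty_iff_false, iff_false]
        intro hx
        exact hI (key c d hcd x hx)
      rw [hset, hzero]
      exact ⟨Set.finite_empty, Set.ncard_empty _⟩
  · intro c d e hcd hde hce x hx
    exact h3 c d e hcd hde hce ⟨key c d hcd x hx.1, key d e hde x hx.2⟩

/-- tent function, supported on `[0,2]`, with value `1` exactly at `1` -/
noncomputable def tent (x : ℝ) : ℝ := max 0 (1 - |x - 1|)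

open Classical in
/-- simultaneous touches -/
theorem Arr.bump {p m : ι → ℝ} (hp : Function.Injective p)
    (hm : ∀ c d, p c < p d → m c ≤ m d)
    (h3 : ∀ c d e, c ≠ d → d ≠ e → c ≠ e → ¬ (m c = m d ∧ m d = m e)) :
    Arr p p (fun c d => if m c = m d then 1 else 0) := by
  have ht0 : ∀ x, 0 ≤ tent x := fun x => le_max_left _ _
  have ht1 : ∀ x, tent x ≤ 1 := fun x => max_le zero_le_one (by linarith [abs_nonneg (x - 1)])
  have ht1' : ∀ x, tent x = 1 → x = 1 := by
    intro x hx
    unfold tent at hx
    rcases le_total 0 (1 - |x - 1|) with h | h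
    · rw [max_eq_right h] at hx
      have : |x - 1| = 0 := by linarith
      have := abs_eq_zero.mp this
      linarith
    · rw [max_eq_left h] at hx; norm_num at hx
  have ht11 : tent 1 = 1 := by unfold tent; simp
  have hmain : ∀ c d, p c < p d → ∀ x, p c + tent x * (m c - p c) = p d + tent x * (m d - p d) →
      (m c = m d ∧ x = 1) := by
    intro c d h x hx
    have hle := hm c d h
    have h0 := ht0 x
    have h1 := ht1 x
    have e1 : (1 - tent x) * (p d - p c) + tent x * (m d - m c) = 0 := by linarith
    have a1 : 0 ≤ (1 - tent x) * (p d - p c) := mul_nonneg (by linarith) (by linarith)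
    have a2 : 0 ≤ tent x * (m d - m c) := mul_nonneg h0 (by linarith)
    have b1 : (1 - tent x) * (p d - p c) = 0 := by linarith
    have b2 : tent x * (m d - m c) = 0 := by linarith
    have hx1 : tent x = 1 := by
      rcases mul_eq_zero.mp b1 with h' | h' <;> linarith
    rw [hx1] at b2
    exact ⟨by linarith, ht1' x hx1⟩
  have hmain' : ∀ c d, c ≠ d → ∀ x, p c + tent x * (m c - p c) = p d + tent x * (m d - p d) →
      (m c = m d ∧ x = 1) := by
    intro c d hcd x hx
    rcases lt_or_gt_of_ne (hp.ne hcd) with h | h
    · exact hmain c d h x hx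
    · obtain ⟨h1, h2⟩ := hmain d c h x hx.symm
      exact ⟨h1.symm, h2⟩
  refine ⟨fun c x => p c + tent x * (m c - p c), 2, by norm_num, ?_, ?_, ?_, ?_, ?_⟩
  · intro c
    refine continuous_const.add (Continuous.mul ?_ continuous_const)
    exact continuous_const.max (continuous_const.sub (continuous_id.sub continuous_const).abs)
  · intro c x hx
    have : tent x = 0 := by
      unfold tent
      rw [abs_of_nonpos (by linarith)]
      exact max_eq_left (by linarith)
    show p c + tent x * (m c - p c) = p c
    rw [this]; ring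
  · intro c x hx
    have : tent x = 0 := by
      unfold tent
      rw [abs_of_nonneg (by linarith)]
      exact max_eq_left (by linarith)
    show p c + tent x * (m c - p c) = p c
    rw [this]; ring
  · intro c d hcd
    show {x | p c + tent x * (m c - p c) = p d + tent x * (m d - p d)}.Finite ∧
      {x | p c + tent x * (m c - p c) = p d + tent x * (m d - p d)}.ncard = (if m c = m d then 1 else 0)
    by_cases hE : m c = m d
    · have hset : {x | p c + tent x * (m c - p c) = p d + tent x * (m d - p d)} = {1} := by
        ext x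
        simp only [Set.mem_ofPred_eq, Set.mem_singleton_iff]
        constructor
        · intro hx; exact (hmain' c d hcd x hx).2
        · intro hx; rw [hx, ht11, hE]; ring
      rw [hset, if_pos hE]
      exact ⟨Set.finite_singleton _, Set.ncard_singleton _⟩
    · have hset : {x | p c + tent x * (m c - p c) = p d + tent x * (m d - p d)} = ∅ := by
        ext x
        simp only [Set.mem_ofPred_eq, Set.mem_empty_iff_false, iff_false]
        intro hx; exact hE (hmain' c d hcd x hx).1
      rw [hset, if_neg hE]
      exact ⟨Set.finite_empty, Set.ncard_empty _⟩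
  · intro c d e hcd hde hce x hx
    exact h3 c d e hcd hde hce ⟨(hmain' c d hcd x hx.1).1, (hmain' d e hde x hx.2).1⟩

open Classical in
/-- bubble sort: from any heights to any heights, every pair meets once if inverted and not at all
otherwise -/
theorem Arr.bubble [Fintype ι] {p q : ι → ℝ} (hp : Function.Injective p)
    (hq : Function.Injective q) : Arr p q (inv p q) := by
  obtain ⟨n, hn⟩ : ∃ n, (Finset.univ.filter (fun z : ι × ι => p z.1 < p z.2 ∧ q z.2 < q z.1)).card = n :=
    ⟨_, rfl⟩
  induction n using Nat.strong_induction_on generalizing p with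
  | _ n ih =>
    by_cases hne : (Finset.univ.filter (fun z : ι × ι => p z.1 < p z.2 ∧ q z.2 < q z.1)).Nonempty
    · obtain ⟨⟨c0, d0⟩, hmem, hmin⟩ := Finset.exists_min_image _ (fun z : ι × ι => p z.2 - p z.1) hne
      rw [Finset.mem_filter] at hmem
      obtain ⟨-, hpcd, hqcd⟩ := hmem
      simp only at hpcd hqcd hmin
      have hcd0 : c0 ≠ d0 := by rintro rfl; exact lt_irrefl _ hpcd
      have hadj : ∀ e, ¬ (p c0 < p e ∧ p e < p d0) := by
        rintro e ⟨h1, h2⟩
        rcases lt_or_ge (q e) (q c0) with h | h
        · have := hmin (c0, e) (by rw [Finset.mem_filter]; exact ⟨Finset.mem_univ _, h1, h⟩)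
          simp only at this; linarith
        · have := hmin (e, d0) (by rw [Finset.mem_filter]; exact ⟨Finset.mem_univ _, h2, lt_of_lt_of_le hqcd h⟩)
          simp only at this; linarith
      set p' : ι → ℝ := fun c => p (Equiv.swap c0 d0 c) with hp'
      have hp'inj : Function.Injective p' := fun a b hab => (Equiv.swap c0 d0).injective (hp hab)
      have hc0 : p' c0 = p d0 := by simp [hp']
      have hd0 : p' d0 = p c0 := by simp [hp']
      have hoth : ∀ e, e ≠ c0 → e ≠ d0 → p' e = p e := by
        intro e h1 h2; simp only [hp']; rw [Equiv.swap_apply_of_ne_of_ne h1 h2]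
      -- orders of pairs other than {c0,d0}
      have hup : ∀ e, e ≠ c0 → e ≠ d0 → (p e < p c0 ↔ p e < p d0) := by
        intro e h1 h2
        constructor
        · intro h; linarith
        · intro h
          by_contra hcon
          exact hadj e ⟨lt_of_le_of_ne (not_lt.mp hcon) (fun h' => h1 (hp h'.symm)), h⟩
      have hdn : ∀ e, e ≠ c0 → e ≠ d0 → (p c0 < p e ↔ p d0 < p e) := by
        intro e h1 h2
        constructor
        · intro h
          by_contra hcon
          exact hadj e ⟨h, lt_of_le_of_ne (not_lt.mp hcon) (fun h' => h2 (hp h'))⟩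
        · intro h; linarith
      have hord : ∀ c d, c ≠ d → ¬ (c = c0 ∧ d = d0) → ¬ (c = d0 ∧ d = c0) →
          (p' c < p' d ↔ p c < p d) := by
        intro c d hcd h1 h2
        by_cases hc : c = c0
        · subst hc
          have hd : d ≠ d0 := fun h => h1 ⟨rfl, h⟩
          rw [hc0, hoth d hcd.symm hd]
          exact (hdn d hcd.symm hd).symm
        · by_cases hc' : c = d0
          · subst hc'
            have hd : d ≠ c0 := fun h => h2 ⟨rfl, h⟩
            rw [hd0, hoth d hd hcd.symm]
            exact hdn d hd hcd.symm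
          · rw [hoth c hc hc']
            by_cases hd : d = c0
            · subst hd
              rw [hc0]
              exact (hup c hc hc').symm
            · by_cases hd' : d = d0
              · subst hd'
                rw [hd0]
                exact hup c hc hc'
              · rw [hoth d hd hd']
      have hnoinv : ∀ c d, c ≠ d → Inv p p' c d → (c = c0 ∧ d = d0) ∨ (c = d0 ∧ d = c0) := by
        intro c d hcd hI
        by_contra hcon
        push Not at hcon
        obtain ⟨hcon1, hcon2⟩ := hcon
        have h1 := hord c d hcd (fun h => hcon1 h.1 h.2) (fun h => hcon2 h.1 h.2)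
        have h2 := hord d c hcd.symm (fun h => hcon2 h.2 h.1) (fun h => hcon1 h.2 h.1)
        rcases hI with ⟨ha, hb⟩ | ⟨ha, hb⟩
        · exact absurd (h2.mp hb) (not_lt.mpr ha.le)
        · exact absurd (h1.mp hb) (not_lt.mpr ha.le)
      have hlin : Arr p p' (inv p p') := by
        apply Arr.lin hp hp'inj
        rintro c d e hcd hde hce ⟨h1, h2⟩
        rcases hnoinv c d hcd h1 with ⟨rfl, rfl⟩ | ⟨rfl, rfl⟩ <;>
        rcases hnoinv _ e hde h2 with ⟨h3, h4⟩ | ⟨h3, h4⟩
        · exact hcd0 h3.symm
        · exact hce h4.symm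
        · exact hce h4.symm
        · exact hcd0 h3
      have hcard : (Finset.univ.filter (fun z : ι × ι => p' z.1 < p' z.2 ∧ q z.2 < q z.1)).card < n := by
        rw [← hn]
        apply Finset.card_lt_card
        rw [Finset.ssubset_iff_of_subset]
        · refine ⟨(c0, d0), ?_, ?_⟩
          · rw [Finset.mem_filter]; exact ⟨Finset.mem_univ _, hpcd, hqcd⟩
          · rw [Finset.mem_filter]
            rintro ⟨-, h1, -⟩
            simp only at h1
            rw [hc0, hd0] at h1
            linarith
        · rintro ⟨c, d⟩ hz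
          rw [Finset.mem_filter] at hz ⊢
          obtain ⟨-, h1, h2⟩ := hz
          simp only at h1 h2
          refine ⟨Finset.mem_univ _, ?_, h2⟩
          show p c < p d
          have hcd : c ≠ d := by rintro rfl; exact lt_irrefl _ h1
          by_cases hA : c = c0 ∧ d = d0
          · rw [hA.1, hA.2]; exact hpcd
          · by_cases hB : c = d0 ∧ d = c0
            · exfalso
              rw [hB.1, hB.2] at h2
              linarith
            · exact (hord c d hcd hA hB).mp h1
      have hrec := ih _ hcard hp'inj rfl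
      refine (Arr.comp hp'inj hlin hrec).congr ?_
      intro c d hcd
      by_cases hA : c = c0 ∧ d = d0
      · obtain ⟨rfl, rfl⟩ := hA
        have e1 : inv p p' c d = 1 := (inv_eq_one_iff _ _ _ _).mpr
          (Or.inl ⟨hpcd, by rw [hc0, hd0]; exact hpcd⟩)
        have e2 : inv p' q c d = 0 := (inv_eq_zero_iff _ _ _ _).mpr (by
          rintro (⟨h1, h2⟩ | ⟨h1, h2⟩)
          · rw [hc0, hd0] at h1; linarith
          · linarith)
        have e3 : inv p q c d = 1 := (inv_eq_one_iff _ _ _ _).mpr (Or.inl ⟨hpcd, hqcd⟩)
        omega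
      · by_cases hB : c = d0 ∧ d = c0
        · obtain ⟨rfl, rfl⟩ := hB
          have e1 : inv p p' c d = 1 := (inv_eq_one_iff _ _ _ _).mpr
            (Or.inr ⟨hpcd, by rw [hc0, hd0]; exact hpcd⟩)
          have e2 : inv p' q c d = 0 := (inv_eq_zero_iff _ _ _ _).mpr (by
            rintro (⟨h1, h2⟩ | ⟨h1, h2⟩)
            · linarith
            · rw [hc0, hd0] at h1; linarith)
          have e3 : inv p q c d = 1 := (inv_eq_one_iff _ _ _ _).mpr (Or.inr ⟨hpcd, hqcd⟩)
          omega
        · have h1 := hord c d hcd hA hB
          have h2 := hord d c hcd.symm (fun h => hB ⟨h.2, h.1⟩) (fun h => hA ⟨h.2, h.1⟩)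
          have e1 : inv p p' c d = 0 := (inv_eq_zero_iff _ _ _ _).mpr (by
            intro hI
            rcases hnoinv c d hcd hI with h | h
            · exact hA h
            · exact hB h)
          have e2 : inv p' q c d = inv p q c d := by
            apply inv_congr
            unfold Inv
            rw [h1, h2]
          omega
    · rw [Finset.not_nonempty_iff_eq_empty] at hne
      apply Arr.lin hp hq
      rintro c d e hcd hde hce ⟨h1, -⟩
      rcases h1 with ⟨ha, hb⟩ | ⟨ha, hb⟩
      · have : (c, d) ∈ (Finset.univ.filter (fun z : ι × ι => p z.1 < p z.2 ∧ q z.2 < q z.1)) := by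
          rw [Finset.mem_filter]; exact ⟨Finset.mem_univ _, ha, hb⟩
        rw [hne] at this; simp at this
      · have : (d, c) ∈ (Finset.univ.filter (fun z : ι × ι => p z.1 < p z.2 ∧ q z.2 < q z.1)) := by
          rw [Finset.mem_filter]; exact ⟨Finset.mem_univ _, ha, hb⟩
        rw [hne] at this; simp at this

/-- composing a sequence -/
theorem Arr.chain (P : ℕ → ι → ℝ) (N : ℕ → ι → ι → ℕ)
    (m : ℕ) (hP : ∀ i, i ≤ m → Function.Injective (P i))
    (h : ∀ i, i < m → Arr (P i) (P (i + 1)) (N i)) :
    Arr (P 0) (P m) (fun c d => ∑ i ∈ Finset.range m, N i c d) := by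
  induction m with
  | zero =>
    refine (Arr.lin (hP 0 le_rfl) (hP 0 le_rfl) ?_).congr ?_
    · rintro c d e hcd hde hce ⟨h1, -⟩
      rcases h1 with ⟨ha, hb⟩ | ⟨ha, hb⟩ <;> linarith
    · intro c d hcd
      simp only [Finset.range_zero, Finset.sum_empty]
      rw [inv_eq_zero_iff]
      rintro (⟨ha, hb⟩ | ⟨ha, hb⟩) <;> linarith
  | succ m ih =>
    have h1 := ih (fun i hi => hP i (by omega)) (fun i hi => h i (by omega))
    have h2 := h m (by omega)
    refine (Arr.comp (hP m (by omega)) h1 h2).congr ?_
    intro c d hcd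
    rw [Finset.sum_range_succ]

end Pool.Agent.H17T
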