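import Pool.Agent.H17T.Stage

/-!
Every pair meets at least once and at most four times; the pairs word - line are tangent.
-/

namespace Pool.Agent.H17T

open Finset

variable {ι : Type*} {b k : ℕ} {W : ι → ℕ → ℕ}

theorem g_lt_iff (i : ℕ) (c d : ι) : g b k W i c < g b k W i d ↔
    G (b + 1) k i (W c) < G (b + 1) k i (W d) := by unfold g; exact Nat.cast_lt

theorem gr_lt_iff (i : ℕ) (c d : ι) : gr b k W i c < gr b k W i d ↔
    G (b + 1) k i (fun j => rho b (W c j)) < G (b + 1) k i (fun j => rho b (W d j)) := by
  unfold gr; exact Nat.cast_lt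

theorem step_inv (hW : Words b k W) (i : ℕ) (hi : i < k) (c d : ι)
    (h : Inv (g b k W i) (g b k W (i + 1)) c d) :
    (∀ j, j < i → W c j = W d j) ∧ W c i ≠ W d i ∧
      T (b + 1) k i (W c) ≠ T (b + 1) k i (W d) := by
  unfold Inv at h
  rw [g_lt_iff, g_lt_iff, g_lt_iff, g_lt_iff] at h
  rcases h with ⟨h1, h2⟩ | ⟨h1, h2⟩
  · exact step_aux k i hi _ _ (hW.dig c) (hW.dig d) h1 h2
  · obtain ⟨h3, h4, h5⟩ := step_aux k i hi _ _ (hW.dig d) (hW.dig c) h1 h2
    exact ⟨fun j hj => (h3 j hj).symm, h4.symm, h5.symm⟩

/-- the steps between the stages contribute at most one meeting -/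
theorem sum_step_le (hW : Words b k W) (c d : ι) :
    ∑ i ∈ range k, inv (g b k W i) (g b k W (i + 1)) c d ≤ 1 := by
  by_cases h : ∃ i, i < k ∧ Inv (g b k W i) (g b k W (i + 1)) c d
  · obtain ⟨i, hi, hI⟩ := h
    rw [Finset.sum_eq_single_of_mem i (mem_range.mpr hi)]
    · exact inv_le _ _ _ _
    · intro i' hi' hne
      rw [inv_eq_zero_iff]
      intro hI'
      have h1 := step_inv hW i hi c d hI
      have h2 := step_inv hW i' (mem_range.mp hi') c d hI'
      rcases lt_or_gt_of_ne hne with h' | h'
      · exact h2.2.1 (h1.1 i' h')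
      · exact h1.2.1 (h2.1 i h')
  · push Not at h
    rw [Finset.sum_eq_zero]
    · exact zero_le_one
    · intro i hi
      rw [inv_eq_zero_iff]
      exact h i (mem_range.mp hi)

theorem blk_eq_zero (hW : Words b k W) (i : ℕ) (hi : i < k) (c d : ι) (hcd : c ≠ d)
    (hT : T (b + 1) k i (W c) ≠ T (b + 1) k i (W d)) : blk b k W i c d = 0 := by
  unfold blk
  apply Finset.sum_eq_zero
  intro a ha
  have h1 : inv (g b k W i) (gl b k W i a) c d = 0 := by
    rw [inv_eq_zero_iff]
    intro h
    exact hT (block_inv hW i hi a (mem_range.mp ha) c d h).1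
  have h2 : tch b k W i a c d = 0 := by
    unfold tch
    rw [if_neg]
    intro h
    exact hT (touch_iff hW i hi a c d hcd h).1
  omega

/-- if two words agree off `i` then the blocks of the other stages and the steps do not matter -/
theorem NN_eq (hW : Words b k W) (i : ℕ) (hi : i < k) (c d : ι) (hcd : c ≠ d)
    (hT : T (b + 1) k i (W c) = T (b + 1) k i (W d)) :
    NN b k W c d = inv (gr b k W 0) (g b k W 0) c d + blk b k W i c d +
      inv (g b k W k) (gr b k W k) c d := by
  have hx : W c i ≠ W d i := fun hx => hcd (hW.eq_of hi hT hx)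
  have hoff := (T_eq_iff k i hi _ _ (hW.dig c) (hW.dig d)).mp hT
  have hsum : ∑ i' ∈ range k, (blk b k W i' c d + inv (g b k W i') (g b k W (i' + 1)) c d) =
      blk b k W i c d := by
    rw [Finset.sum_eq_single_of_mem i (mem_range.mpr hi)]
    · have : inv (g b k W i) (g b k W (i + 1)) c d = 0 := by
        rw [inv_eq_zero_iff]
        intro h
        exact (step_inv hW i hi c d h).2.2 hT
      rw [this, add_zero]
    · intro i' hi' hne
      have hi'k := mem_range.mp hi'
      have h1 : blk b k W i' c d = 0 := by
        apply blk_eq_zero hW i' hi'k c d hcd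
        intro hT'
        have := (T_eq_iff k i' hi'k _ _ (hW.dig c) (hW.dig d)).mp hT' i hi (Ne.symm hne)
        exact hx this
      have h2 : inv (g b k W i') (g b k W (i' + 1)) c d = 0 := by
        rw [inv_eq_zero_iff]
        intro h
        exact (step_inv hW i' hi'k c d h).2.1 (hoff i' hi'k hne)
      omega
  unfold NN
  rw [hsum]

/-- a word and a line through it: exactly one meeting, and the same order at both ends -/
theorem NN_tangent (hW : Words b k W) (i : ℕ) (hi : i < k) (c d : ι)
    (hoff : ∀ j, j < k → j ≠ i → W c j = W d j) (hc : W c i < b) (hd : W d i = b) :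
    NN b k W c d = 1 ∧ gr b k W 0 c < gr b k W 0 d ∧ gr b k W k c < gr b k W k d := by
  have hlt : W c i < W d i := by omega
  have hcd : c ≠ d := by rintro rfl; exact lt_irrefl _ hlt
  have hT : T (b + 1) k i (W c) = T (b + 1) k i (W d) :=
    (T_eq_iff k i hi _ _ (hW.dig c) (hW.dig d)).mpr hoff
  have hr : rho b (W c i) < rho b (W d i) := by rw [hd]; exact rho_top hc
  have hrd : ∀ j, rho b (W c j) < b + 1 := fun j => rho_lt hW.pos (hW.dig c j)
  have hrd' : ∀ j, rho b (W d j) < b + 1 := fun j => rho_lt hW.pos (hW.dig d j)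
  have e1 : g b k W 0 c < g b k W 0 d := by
    rw [g_lt_iff]
    exact G0_lt k i hi _ _ (hW.dig c) (fun j hj hij => hoff j hj (by omega)) hlt
  have e2 : g b k W k c < g b k W k d := by
    rw [g_lt_iff]
    exact Gk_lt k i hi _ _ (hW.dig c) (fun j hj => hoff j (by omega) (by omega)) hlt
  have e3 : gr b k W 0 c < gr b k W 0 d := by
    rw [gr_lt_iff]
    exact G0_lt k i hi _ _ hrd (fun j hj hij => by show rho b (W c j) = rho b (W d j); rw [hoff j hj (by omega)]) hr
  have e4 : gr b k W k c < gr b k W k d := by
    rw [gr_lt_iff]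
    exact Gk_lt k i hi _ _ hrd (fun j hj => by show rho b (W c j) = rho b (W d j); rw [hoff j (by omega) (by omega)]) hr
  refine ⟨?_, e3, e4⟩
  rw [NN_eq hW i hi c d hcd hT]
  have h1 : inv (gr b k W 0) (g b k W 0) c d = 0 := by
    rw [inv_eq_zero_iff]; rintro (⟨h, h'⟩ | ⟨h, h'⟩) <;> linarith
  have h2 : inv (g b k W k) (gr b k W k) c d = 0 := by
    rw [inv_eq_zero_iff]; rintro (⟨h, h'⟩ | ⟨h, h'⟩) <;> linarith
  have h3 : blk b k W i c d = 1 := by
    unfold blk
    rw [Finset.sum_eq_single_of_mem (W c i) (mem_range.mpr hc)]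
    · have h4 : inv (g b k W i) (gl b k W i (W c i)) c d = 0 := by
        rw [inv_eq_zero_iff]
        intro h
        have := (block_inv hW i hi _ hc c d h).2
        omega
      have h5 : tch b k W i (W c i) c d = 1 := by
        unfold tch
        rw [if_pos]
        unfold gm mu
        rw [if_pos rfl, hT, hd]
        rw [if_neg (by omega)]
      omega
    · intro a ha hne
      have h4 : inv (g b k W i) (gl b k W i a) c d = 0 := by
        rw [inv_eq_zero_iff]
        intro h
        have := (block_inv hW i hi a (mem_range.mp ha) c d h).2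
        omega
      have h5 : tch b k W i a c d = 0 := by
        unfold tch
        rw [if_neg]
        intro h
        have := (touch_iff hW i hi a c d hcd h).2
        have := mem_range.mp ha
        omega
      omega
  omega

/-- upper bound -/
theorem NN_le (hW : Words b k W) (c d : ι) (hcd : c ≠ d) : NN b k W c d ≤ 4 := by
  have h0 := inv_le (gr b k W 0) (g b k W 0) c d
  have hk := inv_le (g b k W k) (gr b k W k) c d
  by_cases h : ∃ i, i < k ∧ T (b + 1) k i (W c) = T (b + 1) k i (W d)
  · obtain ⟨i, hi, hT⟩ := h
    have hx : W c i ≠ W d i := fun hx => hcd (hW.eq_of hi hT hx)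
    rw [NN_eq hW i hi c d hcd hT]
    have hblk : blk b k W i c d ≤ 2 := by
      unfold blk
      by_cases hmin : min (W c i) (W d i) < b
      · rw [Finset.sum_eq_single_of_mem (min (W c i) (W d i)) (mem_range.mpr hmin)]
        · have h4 := inv_le (g b k W i) (gl b k W i (min (W c i) (W d i))) c d
          have h5 : tch b k W i (min (W c i) (W d i)) c d ≤ 1 := by
            unfold tch; split_ifs <;> omega
          by_cases h6 : Inv (g b k W i) (gl b k W i (min (W c i) (W d i))) c d
          · have h7 := (block_inv hW i hi _ hmin c d h6).2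
            have h8 : tch b k W i (min (W c i) (W d i)) c d = 0 := by
              unfold tch
              rw [if_neg]
              intro h
              have h9 := (touch_iff hW i hi _ c d hcd h).2
              omega
            omega
          · have := (inv_eq_zero_iff _ _ _ _).mpr h6
            omega
        · intro a ha hne
          have ha' := mem_range.mp ha
          have h4 : inv (g b k W i) (gl b k W i a) c d = 0 := by
            rw [inv_eq_zero_iff]
            intro h
            have := (block_inv hW i hi a ha' c d h).2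
            omega
          have h5 : tch b k W i a c d = 0 := by
            unfold tch
            rw [if_neg]
            intro h
            have := (touch_iff hW i hi a c d hcd h).2
            omega
          omega
      · exfalso
        have h1 := hW.dig c i
        have h2 := hW.dig d i
        omega
    omega
  · push Not at h
    unfold NN
    have h1 : ∑ i ∈ range k, (blk b k W i c d + inv (g b k W i) (g b k W (i + 1)) c d) =
        ∑ i ∈ range k, inv (g b k W i) (g b k W (i + 1)) c d := by
      apply Finset.sum_congr rfl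
      intro i hi
      rw [blk_eq_zero hW i (mem_range.mp hi) c d hcd (h i (mem_range.mp hi)), zero_add]
    rw [h1]
    have := sum_step_le hW c d
    omega

/-- one half of the argument that a pair differing in two places is inverted somewhere -/
theorem top_aux (hW : Words b k W) (c d : ι) (m M : ℕ) (hm : m < k) (hM : M < k)
    (h1 : ∀ j, j < m → W c j = W d j) (h2 : ∀ j, j < k → M < j → W c j = W d j)
    (hmlt : W c m < W d m) (hMne : W c M ≠ W d M)
    (i0 : ¬ Inv (gr b k W 0) (g b k W 0) c d) (ik : ¬ Inv (g b k W k) (gr b k W k) c d)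
    (hstep : g b k W 0 c < g b k W 0 d ↔ g b k W k c < g b k W k d) : m = M := by
  have hrd : ∀ j, rho b (W c j) < b + 1 := fun j => rho_lt hW.pos (hW.dig c j)
  have hrd' : ∀ j, rho b (W d j) < b + 1 := fun j => rho_lt hW.pos (hW.dig d j)
  have e1 : g b k W k c < g b k W k d := by
    rw [g_lt_iff]; exact Gk_lt k m hm _ _ (hW.dig c) h1 hmlt
  have hdm : W d m = b := by
    by_contra hne
    have hlt : W d m < b := by have := hW.dig d m; omega
    apply ik
    refine Or.inl ⟨e1, ?_⟩
    rw [gr_lt_iff]
    exact Gk_lt k m hm _ _ hrd' (fun j hj => by show rho b (W d j) = rho b (W c j); rw [h1 j hj])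
      (rho_anti hmlt hlt)
  have e2 := hstep.mpr e1
  have hMlt : W c M < W d M := by
    rcases lt_or_gt_of_ne hMne with h | h
    · exact h
    · exfalso
      have : g b k W 0 d < g b k W 0 c := by
        rw [g_lt_iff]
        exact G0_lt k M hM _ _ (hW.dig d) (fun j hj hj' => (h2 j hj hj').symm) h
      linarith
  have hdM : W d M = b := by
    by_contra hne
    have hlt : W d M < b := by have := hW.dig d M; omega
    apply i0
    refine Or.inr ⟨?_, e2⟩
    rw [gr_lt_iff]
    exact G0_lt k M hM _ _ hrd' (fun j hj hj' => by show rho b (W d j) = rho b (W c j); rw [h2 j hj hj'])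
      (rho_anti hMlt hlt)
  exact hW.one d m M hm hM hdm hdM

theorem Inv.swap {p q : ι → ℝ} {c d : ι} (h : Inv p q c d) : Inv p q d c := by
  rcases h with ⟨h1, h2⟩ | ⟨h1, h2⟩
  · exact Or.inr ⟨h1, h2⟩
  · exact Or.inl ⟨h1, h2⟩

/-- lower bound: for a pair `c < d` at the first difference -/
theorem NN_pos_aux (hW : Words b k W) (c d : ι) (hcd : c ≠ d) (h0 : NN b k W c d = 0) : False := by
  have hsplit : inv (gr b k W 0) (g b k W 0) c d = 0 ∧ inv (g b k W k) (gr b k W k) c d = 0 ∧
      ∑ i ∈ range k, (blk b k W i c d + inv (g b k W i) (g b k W (i + 1)) c d) = 0 := by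
    unfold NN at h0; omega
  obtain ⟨i0, ik, hs⟩ := hsplit
  rw [inv_eq_zero_iff] at i0 ik
  have hs' : ∀ i, i < k → blk b k W i c d = 0 ∧ ¬ Inv (g b k W i) (g b k W (i + 1)) c d := by
    intro i hi
    have h1 := (Finset.sum_eq_zero_iff.mp hs) i (mem_range.mpr hi)
    refine ⟨by omega, ?_⟩
    rw [← inv_eq_zero_iff]; omega
  -- the order of `g` does not change
  have hord : ∀ i, i ≤ k → (g b k W 0 c < g b k W 0 d ↔ g b k W i c < g b k W i d) := by
    intro i
    induction i with
    | zero => intro _; exact Iff.rfl
    | succ i ih =>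
      intro hi
      rw [ih (by omega)]
      have hI := (hs' i (by omega)).2
      have hne := (g_injective hW i (by omega)).ne hcd
      have hne' := (g_injective hW (i + 1) hi).ne hcd
      constructor
      · intro h
        rcases lt_or_gt_of_ne hne' with h' | h'
        · exact h'
        · exact absurd (Or.inl ⟨h, h'⟩) hI
      · intro h
        rcases lt_or_gt_of_ne hne with h' | h'
        · exact h'
        · exact absurd (Or.inr ⟨h', h⟩) hI
  -- first and last difference
  have hex : ∃ m, m < k ∧ W c m ≠ W d m := by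
    by_contra hcon
    push Not at hcon
    exact hcd (hW.inj c d hcon)
  classical
  have hS : (Finset.univ : Finset (Fin 1)).Nonempty := ⟨0, mem_univ _⟩
  set S : Finset ℕ := (range k).filter (fun m => W c m ≠ W d m) with hSdef
  have hSne : S.Nonempty := by
    obtain ⟨m, hm, hm'⟩ := hex
    exact ⟨m, by rw [hSdef, mem_filter, mem_range]; exact ⟨hm, hm'⟩⟩
  set m := S.min' hSne with hmdef
  set M := S.max' hSne with hMdef
  have hmS : m ∈ S := Finset.min'_mem _ _
  have hMS : M ∈ S := Finset.max'_mem _ _
  rw [hSdef, mem_filter, mem_range] at hmS hMS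
  have h1 : ∀ j, j < m → W c j = W d j := by
    intro j hj
    by_contra hne
    have : j ∈ S := by rw [hSdef, mem_filter, mem_range]; exact ⟨by omega, hne⟩
    have := Finset.min'_le S j this
    omega
  have h2 : ∀ j, j < k → M < j → W c j = W d j := by
    intro j hj hj'
    by_contra hne
    have : j ∈ S := by rw [hSdef, mem_filter, mem_range]; exact ⟨hj, hne⟩
    have := Finset.le_max' S j this
    omega
  have hmM : m = M := by
    rcases lt_or_gt_of_ne hmS.2 with h | h
    · exact top_aux hW c d m M hmS.1 hMS.1 h1 h2 h hMS.2 i0 ik (hord k le_rfl)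
    · refine top_aux hW d c m M hmS.1 hMS.1 (fun j hj => (h1 j hj).symm)
        (fun j hj hj' => (h2 j hj hj').symm) h hMS.2.symm (fun h' => i0 h'.swap)
        (fun h' => ik h'.swap) ?_
      have h3 := hord k le_rfl
      have hne := (g_injective hW 0 (Nat.zero_le k)).ne hcd
      have hne' := (g_injective hW k le_rfl).ne hcd
      constructor
      · intro h'
        by_contra hcon
        have : g b k W k c < g b k W k d := lt_of_le_of_ne (not_lt.mp hcon) hne'
        have := h3.mpr this
        linarith
      · intro h'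
        by_contra hcon
        have : g b k W 0 c < g b k W 0 d := lt_of_le_of_ne (not_lt.mp hcon) hne
        have := h3.mp this
        linarith
  -- only one difference
  have hoff : ∀ j, j < k → j ≠ m → W c j = W d j := by
    intro j hj hne
    rcases lt_or_gt_of_ne hne with h | h
    · exact h1 j h
    · exact h2 j hj (by omega)
  have hoff' : ∀ j, j < k → j ≠ m → W d j = W c j := fun j hj hne => (hoff j hj hne).symm
  -- the two letters
  have hfin : ∀ (c d : ι), (∀ j, j < k → j ≠ m → W c j = W d j) → W c m < W d m →
      W d m < b → Inv (gr b k W 0) (g b k W 0) c d := by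
    intro c d hoff hlt hd
    refine Or.inr ⟨?_, ?_⟩
    · rw [gr_lt_iff]
      exact G0_lt k m hmS.1 _ _ (fun j => rho_lt hW.pos (hW.dig d j))
        (fun j hj hj' => by show rho b (W d j) = rho b (W c j); rw [hoff j hj (by omega)]) (rho_anti hlt hd)
    · rw [g_lt_iff]
      exact G0_lt k m hmS.1 _ _ (hW.dig c) (fun j hj hj' => hoff j hj (by omega)) hlt
  have hNN1 := h0
  rcases lt_or_gt_of_ne hmS.2 with h | h
  · by_cases hd : W d m = b
    · have := (NN_tangent hW m hmS.1 c d hoff (by omega) hd).1
      omega
    · exact i0 (hfin c d hoff h (by have := hW.dig d m; omega))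
  · by_cases hd : W c m = b
    · -- use the block: one touch in the block of stage m
      have hb := (hs' m hmS.1).1
      unfold blk at hb
      have h5 := (Finset.sum_eq_zero_iff.mp hb) (W d m) (mem_range.mpr (by omega))
      have h6 : tch b k W m (W d m) c d = 0 := by omega
      unfold tch at h6
      rw [if_pos] at h6
      · omega
      · have hT : T (b + 1) k m (W c) = T (b + 1) k m (W d) :=
          (T_eq_iff k m hmS.1 _ _ (hW.dig c) (hW.dig d)).mpr hoff
        unfold gm mu
        rw [hT, if_pos rfl, if_neg (by omega), hd]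
    · exact i0 (hfin d c hoff' h (by have := hW.dig c m; omega)).swap

theorem NN_pos (hW : Words b k W) (c d : ι) (hcd : c ≠ d) : 1 ≤ NN b k W c d :=
  Nat.one_le_iff_ne_zero.mpr (fun h => NN_pos_aux hW c d hcd h)

/-- two continuous curves in the same order at both ends with a single common point touch there -/
theorem touch_of_ncard {f g : ℝ → ℝ} (hf : Continuous f) (hg : Continuous g) (L : ℝ)
    (h0 : ∀ x, x ≤ 0 → f x < g x) (hL' : ∀ x, L ≤ x → f x < g x)
    (h1 : {x | f x = g x}.ncard = 1) : ∃ x₀, f x₀ = g x₀ ∧ ∀ x, x ≠ x₀ → f x < g x := by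
  obtain ⟨x₀, hx₀⟩ := Set.ncard_eq_one.mp h1
  have hmem : ∀ x, f x = g x ↔ x = x₀ := by
    intro x
    have : x ∈ {x | f x = g x} ↔ x ∈ ({x₀} : Set ℝ) := by rw [hx₀]
    exact this
  refine ⟨x₀, (hmem x₀).mpr rfl, ?_⟩
  intro x hx
  by_contra hcon
  have hne : f x ≠ g x := fun h => hx ((hmem x).mp h)
  have hgt : g x < f x := lt_of_le_of_ne (not_lt.mp hcon) hne.symm
  have hcont : Continuous (fun t => f t - g t) := hf.sub hg
  rcases lt_or_gt_of_ne hx with h | h
  · -- between `min x 0` and `x`
    have hy := h0 (min x 0) (min_le_right _ _)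
    have hle : min x 0 ≤ x := min_le_left _ _
    have hmem0 : (0 : ℝ) ∈ Set.Icc ((fun t => f t - g t) (min x 0)) ((fun t => f t - g t) x) := by
      constructor
      · show f (min x 0) - g (min x 0) ≤ 0; linarith
      · show 0 ≤ f x - g x; linarith
    obtain ⟨z, hz, hz0⟩ := intermediate_value_Icc hle hcont.continuousOn hmem0
    have hz1 : f z - g z = 0 := hz0
    have : z = x₀ := (hmem z).mp (by linarith)
    rw [this] at hz
    linarith [hz.2]
  · have hy := hL' (max x L) (le_max_right _ _)
    have hle : x ≤ max x L := le_max_left _ _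
    have hmem0 : (0 : ℝ) ∈ Set.Icc ((fun t => f t - g t) (max x L)) ((fun t => f t - g t) x) := by
      constructor
      · show f (max x L) - g (max x L) ≤ 0; linarith
      · show 0 ≤ f x - g x; linarith
    obtain ⟨z, hz, hz0⟩ := intermediate_value_Icc' hle hcont.continuousOn hmem0
    have hz1 : f z - g z = 0 := hz0
    have : z = x₀ := (hmem z).mp (by linarith)
    rw [this] at hz
    linarith [hz.1]

end Pool.Agent.H17T
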