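import Pool.Agent.H17T.Words

/-!
The passes of the construction and the number of meetings of every pair.
-/

namespace Pool.Agent.H17T

open Finset

variable {ι : Type*}

/-- letter value with `a` moved just below `b` -/
noncomputable def lam (b a x : ℕ) : ℝ := if x = a then (b : ℝ) - 1 / 2 else x

/-- letter value with `a` merged into `b` -/
noncomputable def mu (b a x : ℕ) : ℝ := if x = a then (b : ℝ) else x

/-- heights of stage `i` -/
noncomputable def g (b k : ℕ) (W : ι → ℕ → ℕ) (i : ℕ) (c : ι) : ℝ := (G (b + 1) k i (W c) : ℝ)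

noncomputable def gl (b k : ℕ) (W : ι → ℕ → ℕ) (i a : ℕ) (c : ι) : ℝ :=
  (T (b + 1) k i (W c) : ℝ) * (b + 1) + lam b a (W c i)

noncomputable def gm (b k : ℕ) (W : ι → ℕ → ℕ) (i a : ℕ) (c : ι) : ℝ :=
  (T (b + 1) k i (W c) : ℝ) * (b + 1) + mu b a (W c i)

/-- reversal of the letters below `b` -/
def rho (b x : ℕ) : ℕ := if x < b then b - 1 - x else x

noncomputable def gr (b k : ℕ) (W : ι → ℕ → ℕ) (i : ℕ) (c : ι) : ℝ :=
  (G (b + 1) k i (fun j => rho b (W c j)) : ℝ)

open Classical in
/-- touches of the stage `(i,a)` -/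
noncomputable def tch (b k : ℕ) (W : ι → ℕ → ℕ) (i a : ℕ) (c d : ι) : ℕ :=
  if gm b k W i a c = gm b k W i a d then 1 else 0

structure Words (b k : ℕ) (W : ι → ℕ → ℕ) : Prop where
  pos : 1 ≤ b
  dig : ∀ c j, W c j < b + 1
  inj : ∀ c d, (∀ j, j < k → W c j = W d j) → c = d
  one : ∀ c i j, i < k → j < k → W c i = b → W c j = b → i = j

variable {b k : ℕ} {W : ι → ℕ → ℕ}

theorem rho_lt (hb : 1 ≤ b) {x : ℕ} (hx : x < b + 1) : rho b x < b + 1 := by
  unfold rho; split_ifs <;> omega

theorem rho_inj {x y : ℕ} (hx : x < b + 1) (hy : y < b + 1) (h : rho b x = rho b y) : x = y := by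
  unfold rho at h; split_ifs at h <;> omega

theorem rho_anti {x y : ℕ} (hxy : x < y) (hy : y < b) : rho b y < rho b x := by
  unfold rho; rw [if_pos hy, if_pos (by omega)]; omega

theorem rho_top {x : ℕ} (hx : x < b) : rho b x < rho b b := by
  unfold rho; rw [if_pos hx, if_neg (lt_irrefl _)]; omega

theorem lam_mem (hb : 1 ≤ b) (a : ℕ) {x : ℕ} (hx : x < b + 1) : 0 ≤ lam b a x ∧ lam b a x ≤ b := by
  have hb' : (1 : ℝ) ≤ b := by exact_mod_cast hb
  have hx' : (x : ℝ) ≤ b := by exact_mod_cast Nat.lt_succ_iff.mp hx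
  have hx0 : (0 : ℝ) ≤ x := Nat.cast_nonneg x
  unfold lam
  split_ifs
  · constructor <;> linarith
  · exact ⟨hx0, hx'⟩

theorem mu_mem (a : ℕ) {x : ℕ} (hx : x < b + 1) : 0 ≤ mu b a x ∧ mu b a x ≤ b := by
  have hb' : (0 : ℝ) ≤ b := Nat.cast_nonneg b
  have hx' : (x : ℝ) ≤ b := by exact_mod_cast Nat.lt_succ_iff.mp hx
  have hx0 : (0 : ℝ) ≤ x := Nat.cast_nonneg x
  unfold mu
  split_ifs
  · exact ⟨hb', le_rfl⟩
  · exact ⟨hx0, hx'⟩

/-- comparison by the integer part -/
theorem cmp_T {t t' : ℕ} {u v : ℝ} (h : t < t') (hu : u ≤ b) (hv : 0 ≤ v) :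
    (t : ℝ) * (b + 1) + u < t' * (b + 1) + v := by
  have h1 : (t : ℝ) + 1 ≤ t' := by exact_mod_cast h
  have hb' : (0 : ℝ) ≤ b := Nat.cast_nonneg b
  nlinarith

theorem g_eq (i : ℕ) (hi : i < k) (c : ι) :
    g b k W i c = (T (b + 1) k i (W c) : ℝ) * (b + 1) + (W c i : ℝ) := by
  unfold g
  rw [G_eq k i hi]
  push_cast
  ring

theorem g_injective (hW : Words b k W) (i : ℕ) (hi : i ≤ k) : Function.Injective (g b k W i) := by
  intro c d h
  unfold g at h
  have h' : G (b + 1) k i (W c) = G (b + 1) k i (W d) := by exact_mod_cast h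
  exact hW.inj c d (G_inj k i hi _ _ (hW.dig c) (hW.dig d) h')

theorem gr_injective (hW : Words b k W) (i : ℕ) (hi : i ≤ k) : Function.Injective (gr b k W i) := by
  intro c d h
  unfold gr at h
  have h' : G (b + 1) k i (fun j => rho b (W c j)) = G (b + 1) k i (fun j => rho b (W d j)) := by
    exact_mod_cast h
  have := G_inj k i hi _ _ (fun j => rho_lt hW.pos (hW.dig c j)) (fun j => rho_lt hW.pos (hW.dig d j)) h'
  exact hW.inj c d (fun j hj => rho_inj (hW.dig c j) (hW.dig d j) (this j hj))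

/-- equal off `i` and at `i` -/
theorem Words.eq_of (hW : Words b k W) {i : ℕ} (hi : i < k) {c d : ι}
    (hT : T (b + 1) k i (W c) = T (b + 1) k i (W d)) (hx : W c i = W d i) : c = d := by
  apply hW.inj
  intro j hj
  by_cases hji : j = i
  · rw [hji]; exact hx
  · exact (T_eq_iff k i hi _ _ (hW.dig c) (hW.dig d)).mp hT j hj hji

theorem gl_injective (hW : Words b k W) (i : ℕ) (hi : i < k) (a : ℕ) (ha : a < b) :
    Function.Injective (gl b k W i a) := by
  intro c d h
  unfold gl at h
  have hc := lam_mem hW.pos a (hW.dig c i)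
  have hd := lam_mem hW.pos a (hW.dig d i)
  rcases lt_trichotomy (T (b + 1) k i (W c)) (T (b + 1) k i (W d)) with h' | h' | h'
  · have := cmp_T (b := b) h' hc.2 hd.1; linarith
  · rw [h'] at h
    have hl : lam b a (W c i) = lam b a (W d i) := by linarith
    apply hW.eq_of hi h'
    unfold lam at hl
    split_ifs at hl with h1 h2 h2
    · omega
    · exfalso
      have : ((2 * b : ℕ) : ℝ) - 1 = ((2 * W d i : ℕ) : ℝ) := by push_cast; linarith
      have h3 : ((2 * b : ℕ) : ℝ) = ((2 * W d i + 1 : ℕ) : ℝ) := by push_cast; push_cast at this; linarith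
      have h4 : 2 * b = 2 * W d i + 1 := by exact_mod_cast h3
      omega
    · exfalso
      have h3 : ((2 * b : ℕ) : ℝ) = ((2 * W c i + 1 : ℕ) : ℝ) := by push_cast; linarith
      have h4 : 2 * b = 2 * W c i + 1 := by exact_mod_cast h3
      omega
    · exact_mod_cast hl
  · have := cmp_T (b := b) h' hd.2 hc.1; linarith

theorem dig_le (hW : Words b k W) (c : ι) (i : ℕ) : (0 : ℝ) ≤ W c i ∧ (W c i : ℝ) ≤ b :=
  ⟨Nat.cast_nonneg _, by exact_mod_cast Nat.lt_succ_iff.mp (hW.dig c i)⟩

/-- inversions inside a block -/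
theorem block_inv (hW : Words b k W) (i : ℕ) (hi : i < k) (a : ℕ) (ha : a < b) (c d : ι)
    (h : Inv (g b k W i) (gl b k W i a) c d) : T (b + 1) k i (W c) = T (b + 1) k i (W d) ∧
      ((W c i = a ∧ a < W d i ∧ W d i < b) ∨ (W d i = a ∧ a < W c i ∧ W c i < b)) := by
  have hc := lam_mem hW.pos a (hW.dig c i)
  have hd := lam_mem hW.pos a (hW.dig d i)
  have hc' := dig_le hW c i
  have hd' := dig_le hW d i
  unfold Inv at h
  rw [g_eq i hi, g_eq i hi] at h
  unfold gl at h
  have hT : T (b + 1) k i (W c) = T (b + 1) k i (W d) := by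
    rcases lt_trichotomy (T (b + 1) k i (W c)) (T (b + 1) k i (W d)) with h' | h' | h'
    · exfalso
      have h1 := cmp_T (b := b) h' hc.2 hd.1
      have h2 := cmp_T (b := b) h' hc'.2 hd'.1
      rcases h with ⟨h3, h4⟩ | ⟨h3, h4⟩ <;> linarith
    · exact h'
    · exfalso
      have h1 := cmp_T (b := b) h' hd.2 hc.1
      have h2 := cmp_T (b := b) h' hd'.2 hc'.1
      rcases h with ⟨h3, h4⟩ | ⟨h3, h4⟩ <;> linarith
  refine ⟨hT, ?_⟩
  rw [hT] at h
  have key : ∀ x y : ℕ, x < b + 1 → y < b + 1 → (x : ℝ) < y → lam b a y < lam b a x →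
      x = a ∧ a < y ∧ y < b := by
    intro x y hx hy h1 h2
    have hxy : x < y := by exact_mod_cast h1
    unfold lam at h2
    split_ifs at h2 with e1 e2 e2
    · omega
    · exfalso
      have h3 : ((2 * b : ℕ) : ℝ) < ((2 * x + 1 : ℕ) : ℝ) := by push_cast; linarith
      have h4 : 2 * b < 2 * x + 1 := by exact_mod_cast h3
      omega
    · have h3 : ((2 * y + 1 : ℕ) : ℝ) < ((2 * b : ℕ) : ℝ) := by push_cast; linarith
      have h4 : 2 * y + 1 < 2 * b := by exact_mod_cast h3
      omega
    · linarith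
  rcases h with ⟨h1, h2⟩ | ⟨h1, h2⟩
  · left
    exact key _ _ (hW.dig c i) (hW.dig d i) (by linarith) (by linarith)
  · right
    exact key _ _ (hW.dig d i) (hW.dig c i) (by linarith) (by linarith)

/-- touches -/
theorem touch_iff (hW : Words b k W) (i : ℕ) (hi : i < k) (a : ℕ) (c d : ι) (hcd : c ≠ d)
    (h : gm b k W i a c = gm b k W i a d) : T (b + 1) k i (W c) = T (b + 1) k i (W d) ∧
      ((W c i = a ∧ W d i = b) ∨ (W d i = a ∧ W c i = b)) := by
  have hc := mu_mem (b := b) a (hW.dig c i)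
  have hd := mu_mem (b := b) a (hW.dig d i)
  unfold gm at h
  have hT : T (b + 1) k i (W c) = T (b + 1) k i (W d) := by
    rcases lt_trichotomy (T (b + 1) k i (W c)) (T (b + 1) k i (W d)) with h' | h' | h'
    · have := cmp_T (b := b) h' hc.2 hd.1; linarith
    · exact h'
    · have := cmp_T (b := b) h' hd.2 hc.1; linarith
  refine ⟨hT, ?_⟩
  have hne : W c i ≠ W d i := fun hx => hcd (hW.eq_of hi hT hx)
  rw [hT] at h
  have hm : mu b a (W c i) = mu b a (W d i) := by linarith
  unfold mu at hm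
  split_ifs at hm with e1 e2 e2
  · omega
  · left
    exact ⟨e1, by exact_mod_cast hm.symm⟩
  · right
    exact ⟨e2, by exact_mod_cast hm⟩
  · exfalso
    apply hne
    exact_mod_cast hm

theorem Arr.block [Fintype ι] (hW : Words b k W) (i : ℕ) (hi : i < k) (a : ℕ) (ha : a < b) :
    Arr (g b k W i) (g b k W i)
      (fun c d => 2 * inv (g b k W i) (gl b k W i a) c d + tch b k W i a c d) := by
  have hg := g_injective hW i hi.le
  have hgl := gl_injective hW i hi a ha
  have h1 := Arr.bubble hg hgl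
  have h3 := Arr.bubble hgl hg
  have h2 : Arr (gl b k W i a) (gl b k W i a) (tch b k W i a) := by
    apply Arr.bump hgl
    · intro c d hcd
      have hc := mu_mem (b := b) a (hW.dig c i)
      have hd := mu_mem (b := b) a (hW.dig d i)
      have hc' := lam_mem hW.pos a (hW.dig c i)
      have hd' := lam_mem hW.pos a (hW.dig d i)
      unfold gl at hcd
      unfold gm
      rcases lt_trichotomy (T (b + 1) k i (W c)) (T (b + 1) k i (W d)) with h' | h' | h'
      · exact (cmp_T (b := b) h' hc.2 hd.1).le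
      · rw [h'] at hcd ⊢
        have hl : lam b a (W c i) < lam b a (W d i) := by linarith
        have hm : mu b a (W c i) ≤ mu b a (W d i) := by
          have hcb := (dig_le hW c i).2
          unfold lam at hl
          unfold mu
          split_ifs at hl ⊢ with e1 e2 e2
          · exact le_rfl
          · -- b - 1/2 < W d i
            have h3 : ((2 * b : ℕ) : ℝ) < ((2 * W d i + 1 : ℕ) : ℝ) := by push_cast; linarith
            have h4 : 2 * b < 2 * W d i + 1 := by exact_mod_cast h3
            have h5 : b ≤ W d i := by omega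
            exact_mod_cast h5
          · exact hcb
          · exact hl.le
        linarith
      · have := cmp_T (b := b) h' hd'.2 hc'.1; linarith
    · rintro c d e hcd hde hce ⟨h4, h5⟩
      obtain ⟨hT1, hx1⟩ := touch_iff hW i hi a c d hcd h4
      obtain ⟨hT2, hx2⟩ := touch_iff hW i hi a d e hde h5
      have hce' : W c i ≠ W e i := fun hx => hce (hW.eq_of hi (hT1.trans hT2) hx)
      omega
  refine ((h1.comp hgl h2).comp hgl h3).congr ?_
  intro c d hcd
  rw [inv_comm (gl b k W i a) (g b k W i)]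
  ring

/-- the number of meetings -/
noncomputable def blk (b k : ℕ) (W : ι → ℕ → ℕ) (i : ℕ) (c d : ι) : ℕ :=
  ∑ a ∈ range b, (2 * inv (g b k W i) (gl b k W i a) c d + tch b k W i a c d)

noncomputable def NN (b k : ℕ) (W : ι → ℕ → ℕ) (c d : ι) : ℕ :=
  inv (gr b k W 0) (g b k W 0) c d +
    ∑ i ∈ range k, (blk b k W i c d + inv (g b k W i) (g b k W (i + 1)) c d) +
    inv (g b k W k) (gr b k W k) c d

theorem Arr.total [Fintype ι] (hW : Words b k W) :
    Arr (gr b k W 0) (gr b k W k) (NN b k W) := by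
  have hstage : ∀ i, i < k → Arr (g b k W i) (g b k W (i + 1))
      (fun c d => blk b k W i c d + inv (g b k W i) (g b k W (i + 1)) c d) := by
    intro i hi
    have h1 := Arr.chain (fun _ => g b k W i)
      (fun a c d => 2 * inv (g b k W i) (gl b k W i a) c d + tch b k W i a c d) b
      (fun _ _ => g_injective hW i hi.le) (fun a ha => Arr.block hW i hi a ha)
    exact Arr.comp (g_injective hW i hi.le) h1
      (Arr.bubble (g_injective hW i hi.le) (g_injective hW (i + 1) hi))
  have hchain := Arr.chain (fun i => g b k W i)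
    (fun i c d => blk b k W i c d + inv (g b k W i) (g b k W (i + 1)) c d) k
    (fun i hi => g_injective hW i hi) hstage
  have h0 := Arr.bubble (gr_injective hW 0 (Nat.zero_le k)) (g_injective hW 0 (Nat.zero_le k))
  have hk := Arr.bubble (g_injective hW k le_rfl) (gr_injective hW k le_rfl)
  exact (h0.comp (g_injective hW 0 (Nat.zero_le k)) hchain).comp (g_injective hW k le_rfl) hk

end Pool.Agent.H17T
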