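import Pool.Agent.H17T.Arr

/-!
Orders of words by digits: first `i` digits lexicographically, then the other digits from the last
one down to the `i`-th.
-/

namespace Pool.Agent.H17T

/-- the number with digits `c 0, ..., c (i-1)`, most significant first -/
def A (B : ℕ) : ℕ → (ℕ → ℕ) → ℕ
  | 0, _ => 0
  | (i + 1), c => A B i c * B + c i

/-- reversal of the first `k` digits -/
def rv (k : ℕ) (c : ℕ → ℕ) : ℕ → ℕ := fun m => c (k - 1 - m)

def T (B k i : ℕ) (c : ℕ → ℕ) : ℕ := A B i c * B ^ (k - 1 - i) + A B (k - 1 - i) (rv k c)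

def G (B k i : ℕ) (c : ℕ → ℕ) : ℕ := A B i c * B ^ (k - i) + A B (k - i) (rv k c)

variable {B : ℕ}

theorem A_lt (i : ℕ) (c : ℕ → ℕ) (hc : ∀ j, c j < B) : A B i c < B ^ i := by
  induction i with
  | zero => simp [A]
  | succ i ih =>
    have h := hc i
    show A B i c * B + c i < B ^ (i + 1)
    calc A B i c * B + c i < A B i c * B + B := by omega
      _ = (A B i c + 1) * B := by ring
      _ ≤ B ^ i * B := Nat.mul_le_mul_right _ ih
      _ = B ^ (i + 1) := (pow_succ _ _).symm

theorem A_congr (i : ℕ) (c d : ℕ → ℕ) (h : ∀ j, j < i → c j = d j) : A B i c = A B i d := by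
  induction i with
  | zero => rfl
  | succ i ih =>
    show A B i c * B + c i = A B i d * B + d i
    rw [ih (fun j hj => h j (by omega)), h i (by omega)]

theorem euclid {M a a' r r' : ℕ} (hr : r < M) (hr' : r' < M) (h : a * M + r = a' * M + r') :
    a = a' ∧ r = r' := by
  have hM : 0 < M := by omega
  have h1 : (a * M + r) / M = a := by
    rw [mul_comm, Nat.mul_add_div hM, Nat.div_eq_of_lt hr, add_zero]
  have h2 : (a' * M + r') / M = a' := by
    rw [mul_comm, Nat.mul_add_div hM, Nat.div_eq_of_lt hr', add_zero]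
  have h3 : a = a' := by rw [← h1, ← h2, h]
  subst h3
  exact ⟨rfl, by omega⟩

theorem euclid_lt {M a a' r r' : ℕ} (hr : r < M) (h : a < a') : a * M + r < a' * M + r' := by
  have : (a + 1) * M ≤ a' * M := Nat.mul_le_mul_right _ h
  have : (a + 1) * M = a * M + M := by ring
  omega

theorem A_inj (i : ℕ) (c d : ℕ → ℕ) (hc : ∀ j, c j < B) (hd : ∀ j, d j < B)
    (h : A B i c = A B i d) : ∀ j, j < i → c j = d j := by
  induction i with
  | zero => intro j hj; omega
  | succ i ih =>
    obtain ⟨h1, h2⟩ := euclid (hc i) (hd i) h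
    intro j hj
    rcases Nat.lt_succ_iff_lt_or_eq.mp hj with h' | h'
    · exact ih h1 j h'
    · rw [h']; exact h2

theorem A_lt_of (i m : ℕ) (c d : ℕ → ℕ) (hc : ∀ j, c j < B) (hmi : m < i)
    (heq : ∀ j, j < m → c j = d j) (hlt : c m < d m) : A B i c < A B i d := by
  induction i with
  | zero => omega
  | succ i ih =>
    rcases Nat.lt_succ_iff_lt_or_eq.mp hmi with h' | h'
    · exact euclid_lt (hc i) (ih h')
    · subst h'
      show A B m c * B + c m < A B m d * B + d m
      rw [A_congr m c d heq]; omega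

theorem rv_lt (k : ℕ) (c : ℕ → ℕ) (hc : ∀ j, c j < B) : ∀ j, rv k c j < B := fun _ => hc _

theorem G_eq (k i : ℕ) (hi : i < k) (c : ℕ → ℕ) : G B k i c = T B k i c * B + c i := by
  unfold G T
  have h1 : k - i = (k - 1 - i) + 1 := by omega
  rw [h1]
  show A B i c * B ^ (k - 1 - i + 1) + (A B (k - 1 - i) (rv k c) * B + rv k c (k - 1 - i)) = _
  have h2 : rv k c (k - 1 - i) = c i := by
    unfold rv; congr 1; omega
  rw [h2, pow_succ]; ring

theorem G_succ_eq (k i : ℕ) (c : ℕ → ℕ) : G B k (i + 1) c =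
    (A B i c * B + c i) * B ^ (k - 1 - i) + A B (k - 1 - i) (rv k c) := by
  unfold G
  have h1 : k - (i + 1) = k - 1 - i := by omega
  rw [h1]; rfl

theorem T_eq_iff (k i : ℕ) (hi : i < k) (c d : ℕ → ℕ) (hc : ∀ j, c j < B) (hd : ∀ j, d j < B) :
    T B k i c = T B k i d ↔ ∀ j, j < k → j ≠ i → c j = d j := by
  constructor
  · intro h
    obtain ⟨h1, h2⟩ := euclid (A_lt (k - 1 - i) _ (rv_lt k c hc)) (A_lt (k - 1 - i) _ (rv_lt k d hd)) h
    have h3 := A_inj i c d hc hd h1
    have h4 := A_inj (k - 1 - i) _ _ (rv_lt k c hc) (rv_lt k d hd) h2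
    intro j hj hji
    rcases lt_or_gt_of_ne hji with h' | h'
    · exact h3 j h'
    · have := h4 (k - 1 - j) (by omega)
      unfold rv at this
      have e : k - 1 - (k - 1 - j) = j := by omega
      rw [e] at this
      exact this
  · intro h
    unfold T
    rw [A_congr i c d (fun j hj => h j (by omega) (by omega)),
      A_congr (k - 1 - i) (rv k c) (rv k d) (fun j hj => h _ (by omega) (by omega))]

theorem G_inj (k i : ℕ) (hi : i ≤ k) (c d : ℕ → ℕ) (hc : ∀ j, c j < B) (hd : ∀ j, d j < B)
    (h : G B k i c = G B k i d) : ∀ j, j < k → c j = d j := by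
  obtain ⟨h1, h2⟩ := euclid (A_lt (k - i) _ (rv_lt k c hc)) (A_lt (k - i) _ (rv_lt k d hd)) h
  have h3 := A_inj i c d hc hd h1
  have h4 := A_inj (k - i) _ _ (rv_lt k c hc) (rv_lt k d hd) h2
  intro j hj
  rcases lt_or_ge j i with h' | h'
  · exact h3 j h'
  · have := h4 (k - 1 - j) (by omega)
    unfold rv at this
    have e : k - 1 - (k - 1 - j) = j := by omega
    rw [e] at this
    exact this

/-- lexicographic comparison -/
theorem Gk_lt (k m : ℕ) (hm : m < k) (c d : ℕ → ℕ) (hc : ∀ j, c j < B)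
    (heq : ∀ j, j < m → c j = d j) (hlt : c m < d m) : G B k k c < G B k k d := by
  unfold G
  simp only [Nat.sub_self, pow_zero, mul_one]
  show A B k c + 0 < A B k d + 0
  have := A_lt_of k m c d hc hm heq hlt
  omega

/-- colexicographic comparison -/
theorem G0_lt (k m : ℕ) (hm : m < k) (c d : ℕ → ℕ) (hc : ∀ j, c j < B)
    (heq : ∀ j, j < k → m < j → c j = d j) (hlt : c m < d m) : G B k 0 c < G B k 0 d := by
  have h := A_lt_of k (k - 1 - m) (rv k c) (rv k d) (rv_lt k c hc) (by omega)
    (fun j hj => heq _ (by omega) (by omega))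
    (by
      unfold rv
      have e : k - 1 - (k - 1 - m) = m := by omega
      rw [e]; exact hlt)
  unfold G
  show 0 * B ^ (k - 0) + A B (k - 0) (rv k c) < 0 * B ^ (k - 0) + A B (k - 0) (rv k d)
  rw [zero_mul, zero_add, zero_add, Nat.sub_zero]
  exact h

/-- a pair inverted between stages `i` and `i+1` first differs at `i` -/
theorem step_aux (k i : ℕ) (hi : i < k) (c d : ℕ → ℕ) (hc : ∀ j, c j < B) (hd : ∀ j, d j < B)
    (h1 : G B k i c < G B k i d) (h2 : G B k (i + 1) d < G B k (i + 1) c) :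
    (∀ j, j < i → c j = d j) ∧ c i ≠ d i ∧ T B k i c ≠ T B k i d := by
  rw [G_eq k i hi, G_eq k i hi] at h1
  rw [G_succ_eq, G_succ_eq] at h2
  have hr := A_lt (k - 1 - i) _ (rv_lt k c hc)
  have hr' := A_lt (k - 1 - i) _ (rv_lt k d hd)
  have hA : A B i c = A B i d := by
    rcases lt_trichotomy (A B i c) (A B i d) with h | h | h
    · exfalso
      have h3 : A B i c * B + c i < A B i d * B + d i := euclid_lt (hc i) h
      have h4 := euclid_lt (r' := A B (k - 1 - i) (rv k d)) hr h3
      omega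
    · exact h
    · exfalso
      have h3 : T B k i d < T B k i c := euclid_lt hr' h
      have h4 := euclid_lt (r' := c i) (hd i) h3
      omega
  refine ⟨A_inj i c d hc hd hA, ?_, ?_⟩
  · intro hx
    unfold T at h1
    rw [hA, hx] at h1 h2
    have h5 : A B (k - 1 - i) (rv k d) < A B (k - 1 - i) (rv k c) := by omega
    have h6 := Nat.mul_le_mul_right B h5.le
    have e1 : (A B i d * B ^ (k - 1 - i) + A B (k - 1 - i) (rv k c)) * B =
      A B i d * B ^ (k - 1 - i) * B + A B (k - 1 - i) (rv k c) * B := by ring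
    have e2 : (A B i d * B ^ (k - 1 - i) + A B (k - 1 - i) (rv k d)) * B =
      A B i d * B ^ (k - 1 - i) * B + A B (k - 1 - i) (rv k d) * B := by ring
    rw [e1, e2] at h1
    omega
  · intro hT
    rw [hT] at h1
    have hx : c i < d i := by omega
    unfold T at hT
    rw [hA] at hT h2
    have hrr : A B (k - 1 - i) (rv k c) = A B (k - 1 - i) (rv k d) := by omega
    rw [hrr] at h2
    have h7 : A B i d * B + c i ≤ A B i d * B + d i := by omega
    have h8 := Nat.mul_le_mul_right (B ^ (k - 1 - i)) h7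
    omega

end Pool.Agent.H17T
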